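import Pool.Agent.Lib_helper28.OX.Y6

/-!
# Six colours: the least proper subsets, improved tables
-/

set_option autoImplicit false
set_option linter.unusedSectionVars false
set_option linter.unusedVariables false
set_option synthInstance.maxSize 2000

open scoped Classical
open Finset
open Pool.Agent.O2 Pool.Agent.O3

namespace Pool.Agent.OX28

open Pool.Agent.OW (df Yy IH AE bd mg Pair Step gain cst Cex)

variable {V : Type} {G : SimpleGraph V} {S R : Finset V}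

/-- `A` is a clique of `j` low vertices of `S` -/
def LowClq (G : SimpleGraph V) (S A : Finset V) (K j : ℕ) : Prop :=
  A.card = j ∧ Clq G A ∧ ∀ v ∈ A, dg G S v = K

theorem low_r2_3 (h : Cex G S 6 b6) (hr : (S.card - 1) % 6 = 2) (hR : R ⊆ S) (hne : R ≠ S)
    (hc : 6 + 1 ≤ R.card) (hp : (R.card - 1) % 6 = 3) (hy : Yy G 6 b6 R ≤ 10) :
    LowClq G S (S \ R) 6 5 := by
  obtain ⟨-, h1, h2, h3, -, -⟩ := only6 (s0 := 2) (T := r2) h hr (by omega) (tab_r2 h hr)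
    (p0 := 3) (y := 10) (by decide) (by decide) hR hne hc hp hy
  exact ⟨by omega, h2, h3⟩

theorem low_r2_4 (h : Cex G S 6 b6) (hr : (S.card - 1) % 6 = 2) (hR : R ⊆ S) (hne : R ≠ S)
    (hc : 6 + 1 ≤ R.card) (hp : (R.card - 1) % 6 = 4) (hy : Yy G 6 b6 R ≤ 12) :
    LowClq G S (S \ R) 6 4 := by
  obtain ⟨-, h1, h2, h3, -, -⟩ := only6 (s0 := 3) (T := r2) h hr (by omega) (tab_r2 h hr)
    (p0 := 4) (y := 12) (by decide) (by decide) hR hne hc hp hy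
  exact ⟨by omega, h2, h3⟩

theorem low_r2_5 (h : Cex G S 6 b6) (hr : (S.card - 1) % 6 = 2) (hR : R ⊆ S) (hne : R ≠ S)
    (hc : 6 + 1 ≤ R.card) (hp : (R.card - 1) % 6 = 5) (hy : Yy G 6 b6 R ≤ 10) :
    LowClq G S (S \ R) 6 3 := by
  obtain ⟨-, h1, h2, h3, -, -⟩ := only6 (s0 := 4) (T := r2) h hr (by omega) (tab_r2 h hr)
    (p0 := 5) (y := 10) (by decide) (by decide) hR hne hc hp hy
  exact ⟨by omega, h2, h3⟩

theorem eight_r2 (h : Cex G S 6 b6) (hr : (S.card - 1) % 6 = 2) (hR : R ⊆ S) (hne : R ≠ S)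
    (hc : 6 + 1 ≤ R.card) (hp : (R.card - 1) % 6 = 2) : 8 ≤ Yy G 6 b6 R := by
  have h1 := Yev Nm6 G (X := R) (card_pos.1 (by omega))
  by_contra hlt
  have h2 := only6 (s0 := 1) (T := r2) h hr (by omega) (tab_r2 h hr)
    (p0 := 2) (y := 6) (by decide) (by decide) hR hne hc hp (by omega)
  exact h2.1 rfl

theorem low_r3_0 (h : Cex G S 6 b6) (hr : (S.card - 1) % 6 = 3) (hR : R ⊆ S) (hne : R ≠ S)
    (hc : 6 + 1 ≤ R.card) (hp : (R.card - 1) % 6 = 0) (hy : Yy G 6 b6 R ≤ 4) :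
    LowClq G S (S \ R) 6 3 := by
  obtain ⟨-, h1, h2, h3, -, -⟩ := only6 (s0 := 4) (T := r3) h hr (by omega) (tab_r3 h hr)
    (p0 := 0) (y := 4) (by decide) (by decide) hR hne hc hp hy
  exact ⟨by omega, h2, h3⟩

theorem low_r3_4 (h : Cex G S 6 b6) (hr : (S.card - 1) % 6 = 3) (hR : R ⊆ S) (hne : R ≠ S)
    (hc : 6 + 1 ≤ R.card) (hp : (R.card - 1) % 6 = 4) (hy : Yy G 6 b6 R ≤ 8) :
    LowClq G S (S \ R) 6 5 := by
  obtain ⟨-, h1, h2, h3, -, -⟩ := only6 (s0 := 2) (T := r3) h hr (by omega) (tab_r3 h hr)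
    (p0 := 4) (y := 8) (by decide) (by decide) hR hne hc hp hy
  exact ⟨by omega, h2, h3⟩

theorem low_r3_5 (h : Cex G S 6 b6) (hr : (S.card - 1) % 6 = 3) (hR : R ⊆ S) (hne : R ≠ S)
    (hc : 6 + 1 ≤ R.card) (hp : (R.card - 1) % 6 = 5) (hy : Yy G 6 b6 R ≤ 8) :
    LowClq G S (S \ R) 6 4 := by
  obtain ⟨-, h1, h2, h3, -, -⟩ := only6 (s0 := 3) (T := r3) h hr (by omega) (tab_r3 h hr)
    (p0 := 5) (y := 8) (by decide) (by decide) hR hne hc hp hy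
  exact ⟨by omega, h2, h3⟩

theorem eight_r3 (h : Cex G S 6 b6) (hr : (S.card - 1) % 6 = 3) (hR : R ⊆ S) (hne : R ≠ S)
    (hc : 6 + 1 ≤ R.card) (hp : (R.card - 1) % 6 = 3) : 8 ≤ Yy G 6 b6 R := by
  have h1 := Yev Nm6 G (X := R) (card_pos.1 (by omega))
  by_contra hlt
  have h2 := only6 (s0 := 1) (T := r3) h hr (by omega) (tab_r3 h hr)
    (p0 := 3) (y := 6) (by decide) (by decide) hR hne hc hp (by omega)
  exact h2.1 rfl

theorem low_r4_0 (h : Cex G S 6 b6) (hr : (S.card - 1) % 6 = 4) (hR : R ⊆ S) (hne : R ≠ S)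
    (hc : 6 + 1 ≤ R.card) (hp : (R.card - 1) % 6 = 0) (hy : Yy G 6 b6 R ≤ 4) :
    LowClq G S (S \ R) 6 4 := by
  obtain ⟨-, h1, h2, h3, -, -⟩ := only6 (s0 := 3) (T := r4) h hr (by omega) (tab_r4 h hr)
    (p0 := 0) (y := 4) (by decide) (by decide) hR hne hc hp hy
  exact ⟨by omega, h2, h3⟩

theorem low_r4_1 (h : Cex G S 6 b6) (hr : (S.card - 1) % 6 = 4) (hR : R ⊆ S) (hne : R ≠ S)
    (hc : 6 + 1 ≤ R.card) (hp : (R.card - 1) % 6 = 1) (hy : Yy G 6 b6 R ≤ 8) :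
    LowClq G S (S \ R) 6 3 := by
  obtain ⟨-, h1, h2, h3, -, -⟩ := only6 (s0 := 4) (T := r4) h hr (by omega) (tab_r4 h hr)
    (p0 := 1) (y := 8) (by decide) (by decide) hR hne hc hp hy
  exact ⟨by omega, h2, h3⟩

theorem low_r4_5 (h : Cex G S 6 b6) (hr : (S.card - 1) % 6 = 4) (hR : R ⊆ S) (hne : R ≠ S)
    (hc : 6 + 1 ≤ R.card) (hp : (R.card - 1) % 6 = 5) (hy : Yy G 6 b6 R ≤ 6) :
    LowClq G S (S \ R) 6 5 := by
  obtain ⟨-, h1, h2, h3, -, -⟩ := only6 (s0 := 2) (T := r4) h hr (by omega) (tab_r4 h hr)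
    (p0 := 5) (y := 6) (by decide) (by decide) hR hne hc hp hy
  exact ⟨by omega, h2, h3⟩

theorem eight_r4 (h : Cex G S 6 b6) (hr : (S.card - 1) % 6 = 4) (hR : R ⊆ S) (hne : R ≠ S)
    (hc : 6 + 1 ≤ R.card) (hp : (R.card - 1) % 6 = 4) : 8 ≤ Yy G 6 b6 R := by
  have h1 := Yev Nm6 G (X := R) (card_pos.1 (by omega))
  by_contra hlt
  have h2 := only6 (s0 := 1) (T := r4) h hr (by omega) (tab_r4 h hr)
    (p0 := 4) (y := 6) (by decide) (by decide) hR hne hc hp (by omega)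
  exact h2.1 rfl

end Pool.Agent.OX28
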