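import Pool.Agent.Lib_helper28.OX.F1
import Pool.Agent.Lib_helper53.OW.K5c4

/-!
# A minimal counterexample: facts for all residues, any number of colours

`Nm K b` lists the numeric facts about the bound `b` which are used.
-/

set_option autoImplicit false
set_option linter.unusedSectionVars false
set_option linter.unusedVariables false

open scoped Classical
open Finset
open Pool.Agent.O2 (PC Cb CrOn pr ms dg nd addE)
open Pool.Agent.O3 (con hit Clq)
open Pool.Agent.OW28 (NoCE Add1)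
open Pool.Agent.OW

namespace Pool.Agent.OX28

/-- the numeric facts on the bound -/
structure Nm (K : ℕ) (b : ℕ → ℤ) : Prop where
  hK : 5 ≤ K
  F0 : ∀ m : ℕ, (2 : ℤ) ∣ ((K : ℤ) + 1) * (m + 1) - b m
  F1 : ∀ m t s : ℕ, 1 ≤ s → s ≤ K → s ≤ t →
    b m + b t + 2 ≤ b (m + t + 1 - s) + (s : ℤ) * ((K : ℤ) + 2 - s)
  per : ∀ m, b (m + K) = b m + 2
  up : ∀ m, b (m + 1) ≤ b m + K - 1
  up' : ∀ m, (m + 1) % K ≠ 0 → b (m + 1) ≤ b m + K - 2
  top : b K = (K : ℤ) + 1
  nn : ∀ m, K ≤ m → 0 ≤ b m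

variable {V : Type} {K : ℕ} {b : ℕ → ℤ} {G : SimpleGraph V} {S : Finset V}

theorem pr_even (G : SimpleGraph V) (X : Finset V) : (2 : ℤ) ∣ (pr G X X : ℤ) :=
  Pool.Agent.OX25.pr_even G X

/-- `Y` is even -/
theorem Yev (N : Nm K b) (G : SimpleGraph V) {X : Finset V} (hX : X.Nonempty) :
    (2 : ℤ) ∣ Yy G K b X := by
  have h1 := pr_even G X
  have h2 := N.F0 (X.card - 1)
  have h3 : ((X.card - 1 : ℕ) : ℤ) + 1 = X.card := by
    have := card_pos.2 hX
    have e : X.card - 1 + 1 = X.card := by omega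
    exact_mod_cast e
  rw [h3] at h2
  unfold Yy df
  have e : ((K : ℤ) + 1) * X.card - pr G X X - b (X.card - 1) =
      (((K : ℤ) + 1) * X.card - b (X.card - 1)) - pr G X X := by ring
  rw [e]
  exact dvd_sub h2 h1

theorem df_le_card (h : CrOn G S K) : df G K S ≤ S.card := by
  rw [df_sum]
  have h1 : ∑ v ∈ S, (((K : ℤ) + 1) - dg G S v) ≤ ∑ v ∈ S, (1 : ℤ) := by
    apply sum_le_sum
    intro v hv
    have h2 : (K : ℤ) ≤ dg G S v := by exact_mod_cast h.dg_ge hv
    linarith
  rw [sum_const, nsmul_eq_mul, mul_one] at h1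
  exact h1

theorem card_gt (N : Nm K b) (h : Cex G S K b) : K + 1 < S.card := by
  have h1 := h.cr.card_ge
  rcases Nat.eq_or_lt_of_le h1 with h2 | h2
  · exfalso
    have h3 := h.big
    have h4 := df_le_card h.cr
    rw [← h2] at h4
    have h5 : b (S.card - 1) = K + 1 := by
      rw [← h2]; exact N.top
    rw [h5] at h3
    push_cast at h4
    linarith
  · exact h2

theorem df_pos (N : Nm K b) (h : Cex G S K b) : 0 < df G K S := by
  have h1 := card_gt N h
  have h2 := N.nn (S.card - 1) (by omega)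
  have h3 := h.big
  linarith

theorem Y_two (h : Cex G S K b) : 2 ≤ Yy G K b S := by
  have := h.big
  unfold Yy
  linarith

theorem Y_four (N : Nm K b) (h : Cex G S K b) :
    ∀ R ⊆ S, R ≠ S → K + 1 ≤ R.card → 4 ≤ Yy G K b R :=
  Y_ge_four (by have := N.hK; omega) h.cr h.ih N.F1 (Y_two h)

theorem ae_one (N : Nm K b) (h : Cex G S K b) : AE G S K 1 := by
  apply ae_of_Y h.cr h.ih
  intro X hX hne hc
  have := Y_four N h X hX hne hc
  push_cast
  linarith

theorem no_ce (N : Nm K b) (h : Cex G S K b) : NoCE G S K :=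
  noCE_of_Y h.cr (by have := N.hK; omega) (card_gt N h) N.top (Y_four N h)

theorem add_one (N : Nm K b) (h : Cex G S K b) : Add1 G S K :=
  add1_of_ae (by have := N.hK; omega) (ae_one N h)

/-- c2 -/
theorem c2 (N : Nm K b) (h : Cex G S K b) : ∀ x ∈ S, dg G S x = K → ∀ v ∈ S, G.Adj x v →
    Clq G (cn G S v x) → ∀ y ∈ S, G.Adj x y → y ≠ v → dg G S y = K → Tw G S x y :=
  fun x hx hd v hv hxv hq y hy hxy hyv hyd =>
    twin_of_low (by have := N.hK; omega) h.cr (add_one N h) hx hd hv hxv hq hy hxy hyv hyd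

/-- c3 -/
theorem c3 (N : Nm K b) (h : Cex G S K b) : ∀ x ∈ S, dg G S x = K → ∀ v ∈ S, G.Adj x v →
    ∀ v' ∈ S, G.Adj x v' → v ≠ v' → Clq G (cn G S v x) → Clq G (cn G S v' x) → False :=
  fun x hx hd v hv hxv v' hv' hxv' hne hq hq' =>
    not_two_clq h.cr (no_ce N h) hx hd hv hv' hne hxv hxv' hq hq'

/-- c4: a class of twins with a clique has at most `K - 3` vertices -/
theorem c4 (N : Nm K b) (h : Cex G S K b) (hr : (S.card - 1) % K + 2 ≤ K) :
    ∀ x ∈ S, dg G S x = K → ∀ v ∈ S, G.Adj x v → Clq G (cn G S v x) →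
      (tws G S x).card + 4 ≤ K :=
  Pool.Agent.OW53.c4_gen (by have := N.hK; omega) h.cr h.ih (card_gt N h) (no_ce N h)
    (fun R h1 h2 h3 => by linarith [Y_four N h R h1 h2 h3]) (Y_two h) N.per N.up N.up' hr

/-- c4': a class of twins has at most `K - 2` vertices -/
theorem c4' (N : Nm K b) (h : Cex G S K b) : ∀ x ∈ S, dg G S x = K →
    (tws G S x).card + 3 ≤ K :=
  Pool.Agent.OW53.c4'_bt h.cr (card_gt N h) (c3 N h)

/-- a `K`-clique has at most `K - 3` low vertices -/
theorem low_le (N : Nm K b) (h : Cex G S K b) (hr : (S.card - 1) % K + 2 ≤ K) {T : Finset V}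
    (hT : T ⊆ S) (hq : Clq G T) (hk : T.card = K) :
    (T.filter fun t => dg G S t = K).card + 3 ≤ K :=
  Pool.Agent.OW53.clique_low (by have := N.hK; omega) h.cr h.ih (card_gt N h) (add_one N h)
    (no_ce N h) (fun R h1 h2 h3 => by linarith [Y_four N h R h1 h2 h3]) (Y_two h) N.per N.up
    N.up' hr hT hq hk

/-- a `K`-clique has at least three high vertices -/
theorem high_ge (N : Nm K b) (h : Cex G S K b) (hr : (S.card - 1) % K + 2 ≤ K) {T : Finset V}
    (hT : T ⊆ S) (hq : Clq G T) (hk : T.card = K) :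
    3 ≤ (T.filter fun t => ¬ dg G S t = K).card := by
  have h1 := low_le N h hr hT hq hk
  have h2 : (T.filter fun t => dg G S t = K).card + (T.filter fun t => ¬ dg G S t = K).card
      = K := by
    rw [card_filter_add_card_filter_not, hk]
  omega

/-- two vertices of a `K`-clique are not low (all residues) -/
theorem two_high (N : Nm K b) (h : Cex G S K b) : ∀ X ⊆ S, Clq G X →
    X.card = K → 2 ≤ (X.filter fun t => ¬ dg G S t = K).card :=
  fun X hX hq hk => Pool.Agent.OW28.two_high (by have := N.hK; omega) h.cr (add_one N h)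
    (no_ce N h) hX hq hk

/-- a table which is closed under steps and correct in the last step -/
theorem table (N : Nm K b) (h : Cex G S K b) {T : ℕ → ℤ}
    (h1 : ∀ m a s : ℕ, 1 ≤ s → s ≤ K → 1 ≤ a → T m ≤ T (m + a) + cst K b s m a)
    (h2 : ∀ m a s : ℕ, 1 ≤ s → s ≤ K → 1 ≤ a → m + a = S.card - 1 →
      T m ≤ 2 + cst K b s m a + (if s = 1 then 2 else 0)) :
    ∀ R ⊆ S, R ≠ S → K + 1 ≤ R.card → T (R.card - 1) ≤ Yy G K b R := by
  intro R hR hne hc
  have hK := N.hK
  have h3 := chainT (T := fun m => T m - 1) (y := 2) (i := 1)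
    (stp_of_ae (by omega) h.cr h.ih (by omega) (ae_one N h)) (Y_two h) ?_ ?_ R hR hne hc
  · linarith
  · intro m a s hs hs' ha _
    have := h1 m a s hs hs' ha
    linarith
  · intro m s hs hs' hm
    have := h2 m (S.card - 1 - m) s hs hs' (by omega) (by omega)
    push_cast
    linarith

end Pool.Agent.OX28
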