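import Pool.Agent.Lib_helper25.OX.B4
import Pool.Agent.Lib_helper63.OW.FR2

/-!
# Flex reduction with a loss of at most one
-/

set_option autoImplicit false
set_option linter.unusedSectionVars false
set_option linter.unusedVariables false

open scoped Classical
open Finset
open Pool.Agent.O2 (PC Cb CrOn pr ms dg nd addE)
open Pool.Agent.O3 (con hit Clq Non)
open Pool.Agent.OW
open Pool.Agent.OW.S5
open Pool.Agent.OX25 (T6 flex_gen)

namespace Pool.Agent.OX28

variable {V : Type}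

/-- the last step, loss at most one, a tight piece of residue `0` -/
theorem flex_one {K : ℕ} {b : ℕ → ℤ} (T : T6 K b) {G : SimpleGraph V} {S R A : Finset V}
    {ψ : V → Fin K} {Z : Finset (Fin K)} (hI : IH K b S.card)
    (hY : ∀ X ⊆ S, X ≠ S → K + 1 ≤ X.card → 3 ≤ Yy G K b X)
    (h : Step G S R ψ A Z) (hRn : R.Nonempty) (hlt : (A.disjSum Z).card < S.card)
    (hU : R ∪ A = S) (hg : gain G R ψ A Z ≤ 1)
    (hres : K ∣ (A.disjSum Z).card - 1) (hQ : Yy (con G R ψ) K b (A.disjSum Z) = 0) :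
    (A.card + Z.card = K + 1 ∧ Clq G A ∧ (∃ v0, ∀ v ∈ A, v ≠ v0 → dg G S v = K) ∧
      (∀ v ∈ A, dg G S v ≤ K + 1) ∧ (∀ v ∈ A, Z ⊆ hit G R ψ v)) ∨
    ∃ Q ⊆ A, Q.card = K ∧ Clq G Q ∧ (Q.filter fun t => ¬ dg G S t = K).card ≤ 2 := by
  obtain ⟨v0, hv1, hv2⟩ := Pool.Agent.OW63.gain_le_one h.neA hg
  have hdeg : ∀ v ∈ A, v ≠ v0 → dg G S v = dg (con G R ψ) (A.disjSum Z) (Sum.inl v) := by
    intro v hv hvv
    have h1 := Pool.Agent.OW63.Step.dg_eq h hU hv
    have h2 := hv1 v hv hvv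
    have h3 : (dg G S v : ℤ) = dg (con G R ψ) (A.disjSum Z) (Sum.inl v) := by linarith
    exact_mod_cast h3
  have hdeg' : ∀ v ∈ A, dg G S v ≤ dg (con G R ψ) (A.disjSum Z) (Sum.inl v) + 1 := by
    intro v hv
    have h1 := Pool.Agent.OW63.Step.dg_eq h hU hv
    have h2 := hv2 v hv
    have h3 : (dg G S v : ℤ) ≤ dg (con G R ψ) (A.disjSum Z) (Sum.inl v) + 1 := by linarith
    exact_mod_cast h3
  rcases flex_gen T hI hY h hRn hlt hres hQ with hc | ⟨Q, hQs, hQc, hQq, hQd⟩
  · left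
    have hq := clq_of_card h.cr hc
    have hcA : Clq G A := by
      intro a ha c hc hac
      exact hq (Sum.inl a) (inl_mem_disjSum.2 ha) (Sum.inl c) (inl_mem_disjSum.2 hc)
        (fun e => hac (Sum.inl_injective e))
    have hdK : ∀ v ∈ A, dg (con G R ψ) (A.disjSum Z) (Sum.inl v) = K := by
      intro v hv
      have h2 := dg_of_clq hq (inl_mem_disjSum.2 hv)
      omega
    refine ⟨by rw [← card_disjSum]; exact hc, hcA,
      ⟨v0, fun v hv hvv => by rw [hdeg v hv hvv, hdK v hv]⟩, ?_, ?_⟩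
    · intro v hv
      have h2 := hdeg' v hv
      rw [hdK v hv] at h2
      exact h2
    · intro v hv i hi
      have h2 : i ∈ hit G R ψ v ∩ Z := by rw [Pool.Agent.OW63.hit_all hq hv]; exact hi
      exact (mem_inter.1 h2).1
  · right
    refine ⟨Q, hQs, hQc, hQq, ?_⟩
    have h1 : (Q.filter fun t => ¬ dg G S t = K) ⊆ insert v0
        (Q.filter fun t => ¬ dg (con G R ψ) (A.disjSum Z) (Sum.inl t) = K) := by
      intro t ht
      obtain ⟨ht1, ht2⟩ := mem_filter.1 ht
      by_cases htv : t = v0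
      · rw [htv]; exact mem_insert_self _ _
      · refine mem_insert_of_mem (mem_filter.2 ⟨ht1, ?_⟩)
        rw [← hdeg t (hQs ht1) htv]
        exact ht2
    have h2 := card_le_card h1
    have h3 := card_insert_le v0
      (Q.filter fun t => ¬ dg (con G R ψ) (A.disjSum Z) (Sum.inl t) = K)
    omega

end Pool.Agent.OX28
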