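import Pool.Agent.Lib_helper28.OX.Per

/-! Numeric facts for six colours: Ore's table `[5 | 2, -1, -2, -1, 2]`. -/

set_option autoImplicit false
set_option synthInstance.maxSize 1000

open Pool.Agent.OW (cst)
open Pool.Agent.OX25 (T6)

namespace Pool.Agent.OX28

/-- Ore's constants for six colours -/
def v6 (p : ℕ) : ℤ := if p = 0 then 5 else if p = 1 then 2 else if p = 2 then -1
    else if p = 3 then -2 else if p = 4 then -1 else 2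

/-- the bound for six colours -/
def b6 (m : ℕ) : ℤ := 2 * ((m / 6 : ℕ) : ℤ) + v6 (m % 6)

theorem b6_per (m : ℕ) : b6 (m + 6) = b6 m + 2 := by
  unfold b6
  have h1 : (m + 6) % 6 = m % 6 := by omega
  have h2 : (m + 6) / 6 = m / 6 + 1 := by omega
  rw [h1, h2]
  push_cast
  ring

theorem b6_F0 (m : ℕ) : (2 : ℤ) ∣ (((6 : ℕ) : ℤ) + 1) * (m + 1) - b6 m := by
  unfold b6 v6
  push_cast
  split_ifs <;> omega

theorem b6_up (m : ℕ) : b6 (m + 1) ≤ b6 m + ((6 : ℕ) : ℤ) - 1 := by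
  unfold b6 v6
  push_cast
  split_ifs <;> omega

theorem b6_up' (m : ℕ) (h : (m + 1) % 6 ≠ 0) : b6 (m + 1) ≤ b6 m + ((6 : ℕ) : ℤ) - 2 := by
  unfold b6 v6
  push_cast
  split_ifs <;> omega

theorem b6_six : b6 6 = 7 := by decide

theorem b6_nonneg (m : ℕ) (hm : 6 ≤ m) : 0 ≤ b6 m := by
  unfold b6 v6
  split_ifs <;> omega

theorem b6_0 (q : ℕ) : b6 (6 * q) = 2 * (q : ℤ) + (((6 : ℕ) : ℤ) - 1) := by
  unfold b6 v6
  split_ifs <;> push_cast <;> omega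

theorem b6_1 (q : ℕ) : b6 (6 * q + 1) = 2 * (q : ℤ) + 2 := by
  unfold b6 v6
  split_ifs <;> push_cast <;> omega

theorem b6_5 (q : ℕ) : b6 (6 * q + (6 - 1)) = 2 * (q : ℤ) + 2 := by
  unfold b6 v6
  split_ifs <;> push_cast <;> omega

/-- all facts about single steps are checked on residues -/
theorem by_res {P : ℕ → ℕ → ℕ → ℤ → Prop} (m a s : ℕ) (h1 : 1 ≤ s) (h2 : s ≤ 6) (ha : 1 ≤ a)
    (h : ∀ p < 6, ∀ q < 6, ∀ s < 7, 1 ≤ s → P p ((p + (q + 1)) % 6) s (cst 6 b6 s p (q + 1))) :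
    P (m % 6) ((m + a) % 6) s (cst 6 b6 s m a) := by
  rw [cst_mod b6_per s m a ha, add_mod m a ha]
  exact h _ (Nat.mod_lt _ (by omega)) _ (Nat.mod_lt _ (by omega)) s (by omega) h1

theorem b6_cst (m a s : ℕ) (h1 : 1 ≤ s) (h2 : s ≤ 6) (ha : 1 ≤ a) : 2 ≤ cst 6 b6 s m a :=
  by_res (P := fun _ _ _ c => 2 ≤ c) m a s h1 h2 ha (by decide)

theorem b6_F1 (m t s : ℕ) (h1 : 1 ≤ s) (h2 : s ≤ 6) (h3 : s ≤ t) :
    b6 m + b6 t + 2 ≤ b6 (m + t + 1 - s) + (s : ℤ) * (((6 : ℕ) : ℤ) + 2 - s) := by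
  have h := b6_cst m (t + 1 - s) s h1 h2 (by omega)
  unfold cst at h
  have e1 : m + (t + 1 - s) = m + t + 1 - s := by omega
  have e2 : t + 1 - s + s - 1 = t := by omega
  rw [e1, e2] at h
  linarith

/-- the difference to the predecessor, on residues -/
theorem b6_dn (m : ℕ) (hm : 6 ≤ m) : b6 (m - 1) - b6 m = b6 (m % 6 + 6 - 1) - b6 (m % 6 + 6) :=
  down_mod b6_per m hm (by omega)

theorem b6_F2 (N m s : ℕ) (h1 : 2 ≤ s) (h2 : s ≤ 6) (h3 : 6 ≤ m) (h4 : m < N)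
    (hN : N % 6 = 0 ∨ N % 6 = 1) :
    ((6 : ℕ) : ℤ) + 1 + b6 (m - 1) + b6 (N - m + s - 1) ≤
      b6 N + (s : ℤ) * (((6 : ℕ) : ℤ) + 2 - s) := by
  have h := by_res (P := fun p r s c => ¬ (2 ≤ s ∧ (r = 0 ∨ r = 1)) ∨
    7 + (b6 (p + 6 - 1) - b6 (p + 6)) ≤ c) m (N - m) s (by omega) h2 (by omega) (by decide)
  rw [show m + (N - m) = N by omega, ← b6_dn m h3] at h
  replace h := h.resolve_left (fun hn => hn ⟨h1, hN⟩)
  unfold cst at h
  rw [show m + (N - m) = N by omega] at h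
  push_cast at h ⊢
  linarith

theorem b6_F2w (N m s : ℕ) (h1 : 2 ≤ s) (h2 : s ≤ 6) (h3 : 6 ≤ m) (h4 : m < N)
    (hN : N % 6 = 5) :
    ((6 : ℕ) : ℤ) + 1 + b6 (m - 1) + b6 (N - m + s - 1) ≤
      b6 N + (s : ℤ) * (((6 : ℕ) : ℤ) + 2 - s) + 2 := by
  have h := by_res (P := fun p r s c => ¬ (2 ≤ s ∧ r = 5) ∨
    7 + (b6 (p + 6 - 1) - b6 (p + 6)) ≤ c + 2) m (N - m) s (by omega) h2 (by omega) (by decide)
  rw [show m + (N - m) = N by omega, ← b6_dn m h3] at h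
  replace h := h.resolve_left (fun hn => hn ⟨h1, hN⟩)
  unfold cst at h
  rw [show m + (N - m) = N by omega] at h
  push_cast at h ⊢
  linarith

theorem b6_F2e (N m s : ℕ) (h1 : 2 ≤ s) (h2 : s ≤ 6) (h3 : 6 ≤ m) (h4 : m < N)
    (hN : N % 6 = 5) (he : ¬ (m % 6 = 1 ∧ s = 3)) :
    ((6 : ℕ) : ℤ) + 1 + b6 (m - 1) + b6 (N - m + s - 1) ≤
      b6 N + (s : ℤ) * (((6 : ℕ) : ℤ) + 2 - s) := by
  have h := by_res (P := fun p r s c => ¬ (2 ≤ s ∧ r = 5 ∧ ¬ (p = 1 ∧ s = 3)) ∨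
    7 + (b6 (p + 6 - 1) - b6 (p + 6)) ≤ c) m (N - m) s (by omega) h2 (by omega) (by decide)
  rw [show m + (N - m) = N by omega, ← b6_dn m h3] at h
  replace h := h.resolve_left (fun hn => hn ⟨h1, hN, he⟩)
  unfold cst at h
  rw [show m + (N - m) = N by omega] at h
  push_cast at h ⊢
  linarith

end Pool.Agent.OX28
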