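import Pool.Agent.Lib_helper28.OX.N6

/-! Numeric facts for six colours: tight sets. -/

set_option autoImplicit false
set_option synthInstance.maxSize 1000

open Pool.Agent.OW (cst)
open Pool.Agent.OX25 (T6)

namespace Pool.Agent.OX28

theorem b6_c2 (m a s : ℕ) (h1 : 1 ≤ a) (h2 : 1 ≤ s) (h3 : s ≤ 6)
    (hm : m % 6 ≠ 0) (hma : (m + a) % 6 = 0) : 10 ≤ cst 6 b6 s m a := by
  have h := by_res (P := fun p r s c => ¬ (p ≠ 0 ∧ r = 0) ∨ 10 ≤ c) m a s h2 h3 h1 (by decide)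
  exact h.resolve_left (fun hn => hn ⟨hm, hma⟩)

theorem b6_c3 (m a s : ℕ) (h1 : 1 ≤ a) (h2 : 1 ≤ s) (h3 : s ≤ 6)
    (hm : m % 6 = 2) (hma : (m + a) % 6 = 0) : 10 < cst 6 b6 s m a := by
  have h := by_res (P := fun p r s c => ¬ (p = 2 ∧ r = 0) ∨ 10 < c) m a s h2 h3 h1 (by decide)
  exact h.resolve_left (fun hn => hn ⟨hm, hma⟩)

theorem b6_c4 (m a s : ℕ) (h1 : 1 ≤ a) (h2 : 3 ≤ s) (h3 : s ≤ 6)
    (hm : m % 6 = 1) (hma : (m + a) % 6 = 0) : 10 < cst 6 b6 s m a := by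
  have h := by_res (P := fun p r s c => ¬ (3 ≤ s ∧ p = 1 ∧ r = 0) ∨ 10 < c) m a s (by omega) h3
    h1 (by decide)
  exact h.resolve_left (fun hn => hn ⟨h2, hm, hma⟩)

theorem b6_c5 (m a s : ℕ) (h1 : 1 ≤ a) (h2 : 2 ≤ s) (h3 : s ≤ 6)
    (hm : m % 6 = 0) (hma : (m + a) % 6 = 0) : 4 < cst 6 b6 s m a := by
  have h := by_res (P := fun p r s c => ¬ (2 ≤ s ∧ p = 0 ∧ r = 0) ∨ 4 < c) m a s (by omega) h3
    h1 (by decide)
  exact h.resolve_left (fun hn => hn ⟨h2, hm, hma⟩)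

theorem b6_down (m : ℕ) (hm : 1 ≤ m) :
    (m % 6 = 0 → b6 (m - 1) - b6 m + 7 = 2) ∧ (m % 6 = 1 → b6 (m - 1) - b6 m + 7 = 10) ∧
    (m % 6 = 2 → b6 (m - 1) - b6 m + 7 = 10) ∧
    (3 ≤ m % 6 → b6 (m - 1) - b6 m + 7 ≤ 8) := by
  have e1 : b6 (m - 1 + 6) = b6 (m - 1) + 2 := b6_per _
  have e2 : b6 (m + 6) = b6 m + 2 := b6_per _
  have h := b6_dn (m + 6) (by omega)
  have e3 : m + 6 - 1 = m - 1 + 6 := by omega
  have e4 : (m + 6) % 6 = m % 6 := by omega
  rw [e3, e1, e2, e4] at h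
  have hlt : m % 6 < 6 := Nat.mod_lt _ (by omega)
  have key : ∀ p < 6, (p = 0 → b6 (p + 6 - 1) - b6 (p + 6) + 7 = 2) ∧
      (p = 1 → b6 (p + 6 - 1) - b6 (p + 6) + 7 = 10) ∧
      (p = 2 → b6 (p + 6 - 1) - b6 (p + 6) + 7 = 10) ∧
      (3 ≤ p → b6 (p + 6 - 1) - b6 (p + 6) + 7 ≤ 8) := by decide
  have h2 := key (m % 6) hlt
  rw [← h] at h2
  refine ⟨fun h0 => ?_, fun h0 => ?_, fun h0 => ?_, fun h0 => ?_⟩
  · have := h2.1 h0
    linarith
  · have := h2.2.1 h0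
    linarith
  · have := h2.2.2.1 h0
    linarith
  · have := h2.2.2.2 h0
    linarith

/-- the numeric facts for tight sets hold for six colours -/
theorem T6_6 : T6 6 b6 where
  hK := by omega
  pos m hm := by
    unfold b6 v6
    split_ifs <;> omega
  mul m m' h1 h2 := by
    unfold b6 v6
    have e1 : m % 6 = 0 := by omega
    have e2 : m' % 6 = 0 := by omega
    have e3 : (m + m') % 6 = 0 := by omega
    rw [e1, e2, e3]
    have e4 : (m + m') / 6 = m / 6 + m' / 6 := by omega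
    rw [e4]
    push_cast
    norm_num
    ring
  n1 m a s h1 h2 h3 h4 := b6_cst m a s h2 h3 h1
  n2 m a s h1 h2 h3 h4 h5 h6 := by
    have := b6_c2 m a s h1 h2 h3 (by omega) (by omega)
    push_cast
    linarith
  n3a m h1 h2 := by
    have := (b6_down m h2).1 (by omega)
    push_cast
    linarith
  n3b m h1 h2 := by
    have hu := b6_down m (by omega)
    by_cases h : m % 6 = 2
    · right
      refine ⟨?_, fun a s h3 h4 h5 h6 h7 => ?_⟩
      · have := hu.2.2.1 h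
        push_cast
        linarith
      · have := b6_c3 m a s h3 h4 h5 h (by omega)
        push_cast
        linarith
    · left
      have := hu.2.2.2 (by omega)
      push_cast
      linarith
  n3c m h := by
    have := (b6_down m (by omega)).2.1 h
    push_cast
    linarith
  n4 m a s h1 h2 h3 h4 h5 h6 := by
    have := b6_c4 m a s h1 h2 h3 h5 (by omega)
    push_cast
    linarith
  n5 m a s h1 h2 h3 h4 h5 h6 := b6_c5 m a s h1 h2 h3 (by omega) (by omega)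

end Pool.Agent.OX28
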