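import Pool.Agent.Lib_helper25.OX.U0

/-! Tables with period: reduction of numeric facts to finitely many cases. -/

set_option autoImplicit false

open Pool.Agent.OW (cst)

namespace Pool.Agent.OX28

variable {K : ℕ} {b : ℕ → ℤ}

theorem per_mul (hper : ∀ m, b (m + K) = b m + 2) (m j : ℕ) : b (m + K * j) = b m + 2 * j := by
  induction j with
  | zero => simp
  | succ j ih =>
    have e : m + K * (j + 1) = (m + K * j) + K := by ring
    rw [e, hper, ih]
    push_cast
    ring

/-- the cost of a step depends on the residues only -/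
theorem cst_mod (hper : ∀ m, b (m + K) = b m + 2) (s m a : ℕ) (ha : 1 ≤ a) :
    cst K b s m a = cst K b s (m % K) ((a - 1) % K + 1) := by
  unfold cst
  have h1 : m = m % K + K * (m / K) := (Nat.mod_add_div m K).symm
  have h2 : a = (a - 1) % K + 1 + K * ((a - 1) / K) := by
    have := Nat.mod_add_div (a - 1) K
    omega
  generalize hp : m % K = p at *
  generalize hj : m / K = j at *
  generalize hq : (a - 1) % K = q at *
  generalize hi : (a - 1) / K = i at *
  rw [h1, h2]
  have e1 : p + K * j + (q + 1 + K * i) = (p + (q + 1)) + K * (j + i) := by ring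
  have e2 : q + 1 + K * i + s - 1 = (q + 1 + s - 1) + K * i := by omega
  rw [e1, e2, per_mul hper, per_mul hper, per_mul hper]
  push_cast
  ring

theorem add_mod (m a : ℕ) (ha : 1 ≤ a) : (m + a) % K = (m % K + ((a - 1) % K + 1)) % K := by
  have h2 : a = (a - 1) % K + 1 + K * ((a - 1) / K) := by
    have := Nat.mod_add_div (a - 1) K
    omega
  have h3 : m % K + ((a - 1) % K + 1) + K * ((a - 1) / K + m / K) = m + a := by
    have := Nat.mod_add_div m K
    have e : K * ((a - 1) / K + m / K) = K * ((a - 1) / K) + K * (m / K) := by ring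
    rw [e]
    omega
  rw [← h3, Nat.add_mul_mod_self_left]

/-- the difference to the predecessor -/
theorem down_mod (hper : ∀ m, b (m + K) = b m + 2) (m : ℕ) (hm : K ≤ m) (hK : 1 ≤ K) :
    b (m - 1) - b m = b (m % K + K - 1) - b (m % K + K) := by
  have h1 : m = m % K + K * (m / K) := (Nat.mod_add_div m K).symm
  have h0 : 1 ≤ m / K := Nat.div_pos hm (by omega)
  obtain ⟨j, hj⟩ : ∃ j, m / K = j + 1 := ⟨m / K - 1, by omega⟩
  have h2 : m = m % K + K + K * j := by
    have e : K * (j + 1) = K * j + K := by ring
    rw [hj, e] at h1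
    omega
  have h3 : m - 1 = (m % K + K - 1) + K * j := by omega
  generalize hp : m % K = p at *
  rw [h3, h2, per_mul hper]
  have e4 : b (p + K + K * j) = b (p + K) + 2 * j := per_mul hper _ _
  rw [e4]
  ring

end Pool.Agent.OX28
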