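import Pool.Agent.Lib_helper28.OX.Bs
import Pool.Agent.Lib_helper28.OX.N6t
import Pool.Agent.Lib_helper28.OW.G4e

/-! Six colours: the residues `0`, `1`, `5`. -/

set_option autoImplicit false
set_option linter.unusedSectionVars false
set_option linter.unusedVariables false
set_option synthInstance.maxSize 1000

open scoped Classical
open Finset
open Pool.Agent.O2 Pool.Agent.O3

namespace Pool.Agent.OX28

open Pool.Agent.OW (df Yy IH AE bd mg Pair Step gain cst Cex)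
open Pool.Agent.OX25 (T6)

variable {V : Type} {G : SimpleGraph V} {S : Finset V}

theorem Nm6 : Nm 6 b6 where
  hK := by omega
  F0 := b6_F0
  F1 := b6_F1
  per := b6_per
  up m := by simpa using b6_up m
  up' m h := by simpa using b6_up' m h
  top := b6_six
  nn m hm := b6_nonneg m hm

/-- lower bounds for `Y` when the residue is `0`, `1` or `5` -/
def l015 (p : ℕ) : ℤ := if p = 0 then 4 else if p = 1 then 6 else if p = 2 then 12
    else if p = 3 then 14 else if p = 4 then 10 else 6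

theorem tab015 (h : Cex G S 6 b6)
    (hr : (S.card - 1) % 6 = 0 ∨ (S.card - 1) % 6 = 1 ∨ (S.card - 1) % 6 = 5) :
    ∀ R ⊆ S, R ≠ S → 6 + 1 ≤ R.card → l015 ((R.card - 1) % 6) ≤ Yy G 6 b6 R :=
  table (T := fun m => l015 (m % 6)) Nm6 h
    (fun m a s h1 h2 h3 =>
      by_res (P := fun p r _ c => l015 p ≤ l015 r + c) m a s h1 h2 h3 (by decide))
    (fun m a s h1 h2 h3 h4 =>
      (by_res (P := fun p r s c => ¬ (r = 0 ∨ r = 1 ∨ r = 5) ∨ l015 p ≤ 2 + c +
        (if s = 1 then 2 else 0)) m a s h1 h2 h3 (by decide)).resolve_left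
          (fun hn => hn (by rw [h4]; exact hr)))

theorem F3_015 (m a s : ℕ) (h1 : 2 ≤ s) (h2 : s ≤ 6) (h3 : 1 ≤ a) (h4 : 6 ≤ m) :
    ((6 : ℕ) : ℤ) + 1 + b6 (m - 1) + b6 (a + s - 1) <
      b6 (m + a) + (s : ℤ) * (((6 : ℕ) : ℤ) + 2 - s) + l015 ((m + a) % 6) := by
  have h := (by_res (P := fun p r s c => ¬ 2 ≤ s ∨ 7 + (b6 (p + 6 - 1) - b6 (p + 6)) <
    c + l015 r) m a s (by omega) h2 h3 (by decide)).resolve_left (fun hn => hn h1)
  rw [← b6_dn m h4] at h
  unfold cst at h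
  push_cast at h ⊢
  linarith

/-- the residues `0`, `1` are impossible -/
theorem six_01 (h : Cex G S 6 b6) (hr : (S.card - 1) % 6 = 0 ∨ (S.card - 1) % 6 = 1) : False :=
  Pool.Agent.OW28G.r_nopair (K := 6) (β := b6) (Lf := fun m => l015 (m % 6)) (by omega)
    b6_F1 h.cr h.ih (Y_two h) (card_gt Nm6 h) (df_pos Nm6 h)
    (fun m s h1 h2 h3 h4 => b6_F2 _ m s h1 h2 h3 h4 hr)
    (fun m a s h1 h2 h3 h4 _ => F3_015 m a s h1 h2 h3 h4)
    (tab015 h (by omega))

/-- the residue `5` is impossible -/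
theorem six_5 (h : Cex G S 6 b6) (hr : (S.card - 1) % 6 = 5) : False :=
  Pool.Agent.OW28G.r_last (K := 6) (β := b6) (Lf := fun m => l015 (m % 6)) (by omega)
    b6_0 b6_1 b6_5 T6_6 b6_F1 h.cr h.ih (Y_two h) hr (ae_one Nm6 h) (Y_four Nm6 h)
    (fun m s h1 h2 h3 h4 => b6_F2w _ m s h1 h2 h3 h4 hr)
    (fun m s h1 h2 h3 h4 h5 => b6_F2e _ m s h1 h2 h3 h4 hr h5)
    (fun m a s h1 h2 h3 h4 _ => F3_015 m a s h1 h2 h3 h4)
    (tab015 h (by omega))

end Pool.Agent.OX28
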