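import Pool.Agent.Lib_helper28.OX.R6

/-!
# Tables for six colours, residues `2`, `3`, `4`

`last_only` (any number of colours): a proper subset with the least possible `Y` is the complement
of a clique of low vertices.
-/

set_option autoImplicit false
set_option linter.unusedSectionVars false
set_option linter.unusedVariables false
set_option synthInstance.maxSize 1000

open scoped Classical
open Finset
open Pool.Agent.O2 Pool.Agent.O3

namespace Pool.Agent.OX28

open Pool.Agent.OW (df Yy IH AE bd mg Pair Step gain cst Cex gain_zero)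
open Pool.Agent.OX25 (T6 good_step flex_red)

variable {V : Type} {K : ℕ} {b : ℕ → ℤ} {G : SimpleGraph V} {S : Finset V}

/-- if the only step is a last step with a tight piece of residue `0` and the least gain, then the
complement is a clique of low vertices -/
theorem last_only (N : Nm K b) (T6h : T6 K b) (h : Cex G S K b)
    (hrK : (S.card - 1) % K + 2 ≤ K) {T : ℕ → ℤ}
    (hT : ∀ R ⊆ S, R ≠ S → K + 1 ≤ R.card → T ((R.card - 1) % K) ≤ Yy G K b R)
    {R : Finset V} (hR : R ⊆ S) (hne : R ≠ S) (hc : K + 1 ≤ R.card) {y : ℤ}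
    (hy : Yy G K b R ≤ y) {s0 : ℕ}
    (n1 : ∀ a s, 1 ≤ s → s ≤ K → 1 ≤ a →
      y < T ((R.card - 1 + a) % K) + cst K b s (R.card - 1) a)
    (n2 : ∀ a s, 1 ≤ s → s ≤ K → 1 ≤ a → R.card - 1 + a = S.card - 1 →
      y < 2 + cst K b s (R.card - 1) a + (if s = 1 then 2 else 0) ∨
      (s = s0 ∧ y = 2 + cst K b s (R.card - 1) a + (if s = 1 then 2 else 0) ∧
        (a + s - 1) % K = 0)) :
    s0 ≠ 1 ∧ (S \ R).card + s0 = K + 1 ∧ Clq G (S \ R) ∧ (∀ v ∈ S \ R, dg G S v = K) ∧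
      Yy G K b R = y ∧ Yy G K b S = 2 := by
  have hK := N.hK
  have hY2 := Y_two h
  have hY3 : ∀ X ⊆ S, X ≠ S → K + 1 ≤ X.card → 3 ≤ Yy G K b X := fun X h1 h2 h3 => by
    have := Y_four N h X h1 h2 h3
    linarith
  obtain ⟨ψ, A, Z, hst, hY, hQ, hg, hg1⟩ :=
    good_step (by omega) h.cr h.ih (ae_one N h) hR hne hc
  have hA1 : 1 ≤ A.card := card_pos.2 hst.neA
  have hcu := hst.card_union
  have e1 : (R ∪ A).card - 1 = R.card - 1 + A.card := by omega
  have hU : R ∪ A = S := by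
    by_contra hU
    have h1 := n1 A.card Z.card hst.Z_pos hst.Z_le hA1
    have h2 := hT (R ∪ A) hst.sub_union hU (by omega)
    rw [e1] at h2
    linarith
  have hAS : A = S \ R := by
    apply Subset.antisymm hst.hA
    intro v hv
    obtain ⟨h3, h4⟩ := mem_sdiff.1 hv
    rw [← hU] at h3
    exact (mem_union.1 h3).resolve_left h4
  have hYS : Yy G K b (R ∪ A) = Yy G K b S := by rw [hU]
  have hsum : R.card - 1 + A.card = S.card - 1 := by rw [← e1, hU]
  have hgi : (if Z.card = 1 then (2 : ℤ) else 0) ≤ 2 * gain G R ψ A Z := by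
    split_ifs with h1
    · have := hg1 hU h1
      linarith
    · linarith
  rcases n2 A.card Z.card hst.Z_pos hst.Z_le hA1 hsum with h1 | ⟨h1, h2, h3⟩
  · exfalso
    linarith
  · have hcQ := hst.card_Q
    have hQ0 : Yy (con G R ψ) K b (A.disjSum Z) = 0 := by linarith
    have hge : 2 * gain G R ψ A Z = if Z.card = 1 then (2 : ℤ) else 0 := by linarith
    have hYR : Yy G K b R = y := by linarith
    have hYS2 : Yy G K b S = 2 := by linarith
    have hres : K ∣ (A.disjSum Z).card - 1 := by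
      rw [hcQ]
      exact Nat.dvd_of_mod_eq_zero h3
    have hgle : gain G R ψ A Z ≤ 1 := by
      split_ifs at hge <;> linarith
    by_cases hs1 : Z.card = 1
    · exfalso
      rcases flex_one T6h h.ih hY3 hst (card_pos.1 (by omega)) (hst.Q_lt hc) hU hgle hres hQ0
        with ⟨g1, g2, ⟨v0, g3⟩, -, -⟩ | ⟨Q, g1, g2, g3, g4⟩
      · have hAK : A.card = K := by omega
        have g4 := high_ge N h hrK hst.subA g2 hAK
        have g5 : (A.filter fun t => ¬ dg G S t = K) ⊆ {v0} := by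
          intro t ht
          obtain ⟨ht1, ht2⟩ := mem_filter.1 ht
          by_contra hn
          exact ht2 (g3 t ht1 (fun e => hn (mem_singleton.2 e)))
        have g6 := card_le_card g5
        rw [card_singleton] at g6
        omega
      · have g5 := high_ge N h hrK (g1.trans hst.subA) g3 g2
        omega
    · rw [if_neg hs1] at hge
      have hg0 : gain G R ψ A Z = 0 := by linarith
      obtain ⟨g1, g2, g3⟩ := flex_red T6h h.ih hY3 (two_high N h) hst (card_pos.1 (by omega))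
        (hst.Q_lt hc) hU hg0 hres hQ0
      rw [← hAS, ← h1]
      exact ⟨hs1, g1, g2, g3, hYR, hYS2⟩

/-! ### The raw tables -/

/-- residue 2 -/
def r2 (p : ℕ) : ℤ := if p = 0 then 4 else if p = 1 then 4 else if p = 2 then 6
    else if p = 3 then 10 else if p = 4 then 12 else 10

/-- residue 3 -/
def r3 (p : ℕ) : ℤ := if p = 0 then 4 else if p = 1 then 6 else if p = 2 then 6
    else if p = 3 then 6 else if p = 4 then 8 else 8

/-- residue 4 -/
def r4 (p : ℕ) : ℤ := if p = 0 then 4 else if p = 1 then 8 else if p = 2 then 10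
    else if p = 3 then 8 else if p = 4 then 6 else 6

theorem tab_r2 (h : Cex G S 6 b6) (hr : (S.card - 1) % 6 = 2) :
    ∀ R ⊆ S, R ≠ S → 6 + 1 ≤ R.card → r2 ((R.card - 1) % 6) ≤ Yy G 6 b6 R :=
  table (T := fun m => r2 (m % 6)) Nm6 h
    (fun m a s h1 h2 h3 =>
      by_res (P := fun p r _ c => r2 p ≤ r2 r + c) m a s h1 h2 h3 (by decide))
    (fun m a s h1 h2 h3 h4 =>
      (by_res (P := fun p r s c => ¬ (r = 2) ∨ r2 p ≤ 2 + c +
        (if s = 1 then 2 else 0)) m a s h1 h2 h3 (by decide)).resolve_left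
          (fun hn => hn (by rw [h4]; exact hr)))

theorem tab_r3 (h : Cex G S 6 b6) (hr : (S.card - 1) % 6 = 3) :
    ∀ R ⊆ S, R ≠ S → 6 + 1 ≤ R.card → r3 ((R.card - 1) % 6) ≤ Yy G 6 b6 R :=
  table (T := fun m => r3 (m % 6)) Nm6 h
    (fun m a s h1 h2 h3 =>
      by_res (P := fun p r _ c => r3 p ≤ r3 r + c) m a s h1 h2 h3 (by decide))
    (fun m a s h1 h2 h3 h4 =>
      (by_res (P := fun p r s c => ¬ (r = 3) ∨ r3 p ≤ 2 + c +
        (if s = 1 then 2 else 0)) m a s h1 h2 h3 (by decide)).resolve_left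
          (fun hn => hn (by rw [h4]; exact hr)))

theorem tab_r4 (h : Cex G S 6 b6) (hr : (S.card - 1) % 6 = 4) :
    ∀ R ⊆ S, R ≠ S → 6 + 1 ≤ R.card → r4 ((R.card - 1) % 6) ≤ Yy G 6 b6 R :=
  table (T := fun m => r4 (m % 6)) Nm6 h
    (fun m a s h1 h2 h3 =>
      by_res (P := fun p r _ c => r4 p ≤ r4 r + c) m a s h1 h2 h3 (by decide))
    (fun m a s h1 h2 h3 h4 =>
      (by_res (P := fun p r s c => ¬ (r = 4) ∨ r4 p ≤ 2 + c +
        (if s = 1 then 2 else 0)) m a s h1 h2 h3 (by decide)).resolve_left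
          (fun hn => hn (by rw [h4]; exact hr)))

/-- the finitely many checks for `last_only` -/
theorem only6 {r p0 s0 : ℕ} {T : ℕ → ℤ} {y : ℤ} (h : Cex G S 6 b6)
    (hr : (S.card - 1) % 6 = r) (hr4 : r ≤ 4)
    (hT : ∀ R ⊆ S, R ≠ S → 6 + 1 ≤ R.card → T ((R.card - 1) % 6) ≤ Yy G 6 b6 R)
    (c1 : ∀ p < 6, ∀ q < 6, ∀ s < 7, 1 ≤ s → (¬ p = p0 ∨
      y < T ((p + (q + 1)) % 6) + cst 6 b6 s p (q + 1)))
    (c2 : ∀ p < 6, ∀ q < 6, ∀ s < 7, 1 ≤ s → (¬ (p = p0 ∧ (p + (q + 1)) % 6 = r) ∨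
      (y < 2 + cst 6 b6 s p (q + 1) + (if s = 1 then 2 else 0) ∨
      (s = s0 ∧ y = 2 + cst 6 b6 s p (q + 1) + (if s = 1 then 2 else 0) ∧
        (r + 6 - p + s - 1) % 6 = 0))))
    {R : Finset V} (hR : R ⊆ S) (hne : R ≠ S) (hc : 6 + 1 ≤ R.card)
    (hp : (R.card - 1) % 6 = p0) (hy : Yy G 6 b6 R ≤ y) :
    s0 ≠ 1 ∧ (S \ R).card + s0 = 6 + 1 ∧ Clq G (S \ R) ∧ (∀ v ∈ S \ R, dg G S v = 6) ∧
      Yy G 6 b6 R = y ∧ Yy G 6 b6 S = 2 := by
  refine last_only Nm6 T6_6 h (by omega) hT hR hne hc hy ?_ ?_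
  · intro a s h1 h2 h3
    exact (by_res (P := fun p r' s c => ¬ (p = p0) ∨ y < T r' + c) (R.card - 1) a s h1 h2 h3
      c1).resolve_left (fun hn => hn hp)
  · intro a s h1 h2 h3 h4
    have h5 := (by_res (P := fun p r' s c => ¬ (p = p0 ∧ r' = r) ∨
      (y < 2 + c + (if s = 1 then 2 else 0) ∨
      (s = s0 ∧ y = 2 + c + (if s = 1 then 2 else 0) ∧ (r + 6 - p + s - 1) % 6 = 0)))
      (R.card - 1) a s h1 h2 h3 c2).resolve_left (fun hn => hn ⟨hp, by rw [h4]; exact hr⟩)
    rcases h5 with h5 | ⟨h5, h6, h7⟩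
    · exact Or.inl h5
    · refine Or.inr ⟨h5, h6, ?_⟩
      have h8 : (R.card - 1 + a) % 6 = r := by rw [h4]; exact hr
      have hlt : (R.card - 1) % 6 < 6 := Nat.mod_lt _ (by omega)
      omega

end Pool.Agent.OX28
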